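import Pool.Agent.X13.PS.SqrtSeries

/-!
# The alternating weighted partition sum `B_n` vanishes for `n > 1`
-/

open Finset PowerSeries

namespace Pool.Agent.Results.MP_62fa17_nt.AlternatingSumZero

/-- The set `Λ_n` of weakly decreasing `n`-tuples of non-negative integers with sum `n`
(the entries are then at most `n`). -/
def Lambda (n : ℕ) : Finset (Fin n → Fin (n + 1)) :=
  Finset.univ.filter (fun p => (∀ i j : Fin n, i ≤ j → p j ≤ p i) ∧ ∑ i : Fin n, (p i : ℕ) = n)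

/-- The entry `λ_i` of the tuple, for `1 ≤ i ≤ n`, and `0` for other `i`; so `λ_{n+1} = 0`. -/
def entry {n : ℕ} (p : Fin n → Fin (n + 1)) (i : ℕ) : ℕ :=
  if h : 1 ≤ i ∧ i ≤ n then (p ⟨i - 1, by omega⟩ : ℕ) else 0

/-- `C(λ) = ∏_{i=1}^{n} binom(λ_i, λ_{i+1})`. -/
def C {n : ℕ} (p : Fin n → Fin (n + 1)) : ℕ :=
  ∏ i ∈ Finset.Icc 1 n, (entry p i).choose (entry p (i + 1))

/-- `v(λ) = ∏_{i=1}^{n} ((2 i - 1) / i) ^ {λ_i}`. -/
def v {n : ℕ} (p : Fin n → Fin (n + 1)) : ℚ :=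
  ∏ i ∈ Finset.Icc 1 n, ((2 * (i : ℚ) - 1) / i) ^ (entry p i)

/-- `B_n = ∑_{λ ∈ Λ_n} (-1) ^ {1 + λ_1} (1 + λ_1) C(λ) v(λ)`. -/
def B (n : ℕ) : ℚ :=
  ∑ p ∈ Lambda n, (-1) ^ (1 + entry p 1) * (1 + (entry p 1 : ℚ)) * (C p : ℚ) * v p

/-- The coefficients of `1 / √(1 - 2x)`. -/
def s (k : ℕ) : ℚ := ∏ i ∈ Finset.range k, ((2 * ((i + 1 : ℕ) : ℚ) - 1) / ((i + 1 : ℕ) : ℚ))

lemma s_rec (k : ℕ) : ((k : ℚ) + 1) * s (k + 1) = (2 * k + 1) * s k := by
  have h : (k : ℚ) + 1 ≠ 0 := by positivity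
  unfold s
  rw [Finset.prod_range_succ]
  push_cast
  field_simp
  ring

lemma B_eq (n : ℕ) : B (n + 1) = PowerSeries.coeff (n + 1)
    (∑ b ∈ Finset.range (n + 2), PowerSeries.C ((-1) ^ (1 + b) * (1 + (b : ℚ))) *
      (∑ k ∈ Finset.range (n + 1), PowerSeries.C (∏ i ∈ Finset.range (k + 1),
        ((2 * ((i + 1 : ℕ) : ℚ) - 1) / ((i + 1 : ℕ) : ℚ))) * PowerSeries.X ^ (k + 1)) ^ b) := by
  rw [← X13.PS.coeff_sum n (fun i => (2 * (i : ℚ) - 1) / ((i : ℕ) : ℚ))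
    (fun b => (-1) ^ (1 + b) * (1 + (b : ℚ)))]
  unfold B Lambda
  rw [Finset.sum_filter, Finset.sum_filter]
  refine Finset.sum_congr rfl fun p _ => ?_
  have hent : ∀ i, entry p i = X13.PS.lam p i := fun i => rfl
  have hsum : ∑ i : Fin (n + 1), (p i : ℕ) = ∑ i ∈ Finset.range (n + 1), X13.PS.lam p (i + 1) := by
    rw [← Fin.sum_univ_eq_sum_range (fun i => X13.PS.lam p (i + 1)) (n + 1)]
    refine Finset.sum_congr rfl fun i _ => ?_
    unfold X13.PS.lam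
    rw [dif_pos (by omega)]
    congr
  have hprod : (-1) ^ (1 + entry p 1) * (1 + (entry p 1 : ℚ)) * (C p : ℚ) * v p =
      ((-1) ^ (1 + X13.PS.lam p 1) * (1 + (X13.PS.lam p 1 : ℚ))) * ∏ i ∈ Finset.range (n + 1),
        (((2 * ((i + 1 : ℕ) : ℚ) - 1) / ((i + 1 : ℕ) : ℚ)) ^ X13.PS.lam p (i + 1) *
        (((X13.PS.lam p (i + 1)).choose (X13.PS.lam p (i + 2)) : ℕ) : ℚ)) := by
    rw [Finset.prod_mul_distrib, C, v]
    have hr : Finset.Icc 1 (n + 1) = Finset.Ico 1 (n + 2) := by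
      ext x; simp only [Finset.mem_Icc, Finset.mem_Ico]; omega
    rw [hr, Finset.prod_Ico_eq_prod_range, Finset.prod_Ico_eq_prod_range]
    have h1 : ∀ i, 1 + i = i + 1 := fun i => by ring
    simp only [hent, h1]
    rw [show n + 2 - 1 = n + 1 by omega]
    push_cast
    ring
  by_cases hs : ∑ i ∈ Finset.range (n + 1), X13.PS.lam p (i + 1) = n + 1
  · rw [if_pos hs]
    by_cases ha : ∀ i j : Fin (n + 1), i ≤ j → p j ≤ p i
    · rw [if_pos ⟨ha, by rw [hsum, hs]⟩, hprod]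
    · rw [if_neg (fun h => ha h.1)]
      symm
      rw [Finset.prod_mul_distrib]
      by_contra hne
      apply ha
      apply X13.PS.choose_ne_zero_antitone p
      intro h0
      apply hne
      rw [h0]
      ring
  · rw [if_neg hs, if_neg (fun h => hs (by rw [← hsum, h.2]))]

/-- **`B_n = 0` for every `n > 1`.** -/
theorem result : ∀ n : ℕ, 1 < n → B n = 0 := by
  intro n hn
  obtain ⟨n, rfl⟩ : ∃ m, n = m + 2 := ⟨n - 2, by omega⟩
  rw [show n + 2 = (n + 1) + 1 by ring, B_eq]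
  set g : PowerSeries ℚ := ∑ k ∈ Finset.range (n + 1 + 1), PowerSeries.C (∏ i ∈ Finset.range (k + 1),
        ((2 * ((i + 1 : ℕ) : ℚ) - 1) / ((i + 1 : ℕ) : ℚ))) * PowerSeries.X ^ (k + 1) with hg
  set G : PowerSeries ℚ := 1 - PowerSeries.mk s with hG
  -- `-g` and `G` agree up to `X ^ (n + 3)`
  have hcg : ∀ k, PowerSeries.coeff k g = if 1 ≤ k ∧ k ≤ n + 2 then s k else 0 := by
    intro k
    rw [hg, map_sum]
    simp only [PowerSeries.coeff_C_mul, PowerSeries.coeff_X_pow]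
    by_cases hk : 1 ≤ k ∧ k ≤ n + 2
    · rw [if_pos hk, Finset.sum_eq_single (k - 1)]
      · rw [show k - 1 + 1 = k by omega, if_pos rfl, mul_one, s]
      · intro b _ hb
        rw [if_neg (by omega), mul_zero]
      · intro h
        exact absurd (Finset.mem_range.2 (by omega)) h
    · rw [if_neg hk]
      apply Finset.sum_eq_zero
      intro b hb
      rw [Finset.mem_range] at hb
      rw [if_neg (by omega), mul_zero]
  have hdvd : (PowerSeries.X : PowerSeries ℚ) ^ (n + 1 + 2) ∣ -g - G := by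
    rw [PowerSeries.X_pow_dvd_iff]
    intro k hk
    rw [map_sub, map_neg, hcg, hG, map_sub, PowerSeries.coeff_mk, PowerSeries.coeff_one]
    by_cases hk0 : k = 0
    · subst hk0
      simp [s]
    · rw [if_pos (by omega), if_neg hk0]
      ring
  have hXG : (PowerSeries.X : PowerSeries ℚ) ∣ G := by
    rw [PowerSeries.X_dvd_iff, hG, ← PowerSeries.coeff_zero_eq_constantCoeff_apply, map_sub,
      PowerSeries.coeff_mk]
    simp [s]
  have hneg : ∑ b ∈ Finset.range (n + 1 + 2),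
      PowerSeries.C ((-1) ^ (1 + b) * (1 + (b : ℚ))) * g ^ b =
      -∑ b ∈ Finset.range (n + 1 + 2), PowerSeries.C (1 + (b : ℚ)) * (-g) ^ b := by
    rw [← Finset.sum_neg_distrib]
    refine Finset.sum_congr rfl fun b _ => ?_
    rw [map_mul, neg_pow g b, map_pow, map_neg, map_one, pow_add]
    ring
  have hrepl : PowerSeries.coeff (n + 1 + 1) (∑ b ∈ Finset.range (n + 1 + 2),
      PowerSeries.C (1 + (b : ℚ)) * (-g) ^ b) = PowerSeries.coeff (n + 1 + 1)
      (∑ b ∈ Finset.range (n + 1 + 2), PowerSeries.C (1 + (b : ℚ)) * G ^ b) := by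
    rw [← sub_eq_zero, ← map_sub, ← Finset.sum_sub_distrib]
    apply X13.PS.coeff_of_dvd _ (n + 1 + 2) _ (by omega)
    apply Finset.dvd_sum
    intro b _
    rw [← mul_sub]
    exact Dvd.dvd.mul_left (hdvd.trans (sub_dvd_pow_sub_pow (-g) G b)) _
  rw [hneg, map_neg, hrepl, neg_eq_zero]
  set P : PowerSeries ℚ := ∑ b ∈ Finset.range (n + 1 + 2), PowerSeries.C (1 + (b : ℚ)) * G ^ b with hP
  have h0 := X13.PS.sq_pos s (by simp [s]) s_rec
  have h1 : PowerSeries.mk s ^ 2 * P = 1 +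
      G ^ (n + 1 + 2) * (PowerSeries.C ((n + 1 + 2 : ℕ) : ℚ) * G -
        PowerSeries.C (((n + 1 + 2 : ℕ) : ℚ) + 1)) := by
    rw [← X13.PS.tele, hG]
    ring
  have h2 : P = (1 - PowerSeries.C 2 * PowerSeries.X) + G ^ (n + 1 + 2) *
      ((PowerSeries.C ((n + 1 + 2 : ℕ) : ℚ) * G -
        PowerSeries.C (((n + 1 + 2 : ℕ) : ℚ) + 1)) * (1 - PowerSeries.C 2 * PowerSeries.X)) := by
    calc P = (PowerSeries.mk s ^ 2 * (1 - PowerSeries.C 2 * PowerSeries.X)) * P := by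
            rw [h0, one_mul]
      _ = (PowerSeries.mk s ^ 2 * P) * (1 - PowerSeries.C 2 * PowerSeries.X) := by ring
      _ = _ := by rw [h1]; ring
  rw [h2, map_add, X13.PS.coeff_of_dvd _ (n + 1 + 2) (n + 1 + 1) (by omega)
      (Dvd.dvd.mul_right (pow_dvd_pow_of_dvd hXG _) _), add_zero, map_sub,
      PowerSeries.coeff_C_mul, PowerSeries.coeff_X, PowerSeries.coeff_one]
  simp

end Pool.Agent.Results.MP_62fa17_nt.AlternatingSumZero
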