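import Pool.Agent.X13.PS.SqrtSeries

/-!
# The weighted partition sum `A_n` equals `2 ^ n`
-/

open Finset PowerSeries

namespace Pool.Agent.Results.MP_62fa17_nt.SumEqTwoPow

/-- The set `Λ_n` of weakly decreasing `n`-tuples of non-negative integers with sum `n`
(the entries are then at most `n`). -/
def Lambda (n : ℕ) : Finset (Fin n → Fin (n + 1)) :=
  Finset.univ.filter (fun p => (∀ i j : Fin n, i ≤ j → p j ≤ p i) ∧ ∑ i : Fin n, (p i : ℕ) = n)

/-- The entry `λ_i` of the tuple, for `1 ≤ i ≤ n`, and `0` for other `i`; so `λ_{n+1} = 0`. -/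
def entry {n : ℕ} (p : Fin n → Fin (n + 1)) (i : ℕ) : ℕ :=
  if h : 1 ≤ i ∧ i ≤ n then (p ⟨i - 1, by omega⟩ : ℕ) else 0

/-- `C(λ) = ∏_{i=1}^{n} binom(λ_i, λ_{i+1})`. -/
def C {n : ℕ} (p : Fin n → Fin (n + 1)) : ℕ :=
  ∏ i ∈ Finset.Icc 1 n, (entry p i).choose (entry p (i + 1))

/-- `a_1 = 1` and `a_i = 2 i - 3` for `i ≥ 2`. -/
def a (i : ℕ) : ℚ := if i = 1 then 1 else 2 * (i : ℚ) - 3

/-- `u(λ) = ∏_{i=1}^{n} (a_i / i) ^ {λ_i}`. -/
def u {n : ℕ} (p : Fin n → Fin (n + 1)) : ℚ :=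
  ∏ i ∈ Finset.Icc 1 n, (a i / i) ^ (entry p i)

/-- `A_n = ∑_{λ ∈ Λ_n} (1 + λ_1) C(λ) u(λ)`. -/
def A (n : ℕ) : ℚ := ∑ p ∈ Lambda n, (1 + (entry p 1 : ℚ)) * (C p : ℚ) * u p

/-- The coefficients of `√(1 - 2x)`. -/
def s (k : ℕ) : ℚ := if k = 0 then 1 else -∏ i ∈ Finset.range k, (a (i + 1) / ((i + 1 : ℕ) : ℚ))

lemma s_rec (k : ℕ) : ((k : ℚ) + 1) * s (k + 1) = (2 * k + (-1)) * s k := by
  have h : (k : ℚ) + 1 ≠ 0 := by positivity
  rcases k with _ | k
  · simp [s, a]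
  · have e : s (k + 1 + 1) = s (k + 1) * (a (k + 1 + 1) / ((k + 1 + 1 : ℕ) : ℚ)) := by
      unfold s
      rw [if_neg (by omega), if_neg (by omega), Finset.prod_range_succ]
      ring
    rw [e, a, if_neg (by omega)]
    push_cast at h ⊢
    field_simp
    ring

lemma A_eq (n : ℕ) : A (n + 1) = PowerSeries.coeff (n + 1)
    (∑ b ∈ Finset.range (n + 2), PowerSeries.C (1 + (b : ℚ)) *
      (∑ k ∈ Finset.range (n + 1), PowerSeries.C (∏ i ∈ Finset.range (k + 1),
        (a (i + 1) / ((i + 1 : ℕ) : ℚ))) * PowerSeries.X ^ (k + 1)) ^ b) := by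
  rw [← X13.PS.coeff_sum n (fun i => a i / ((i : ℕ) : ℚ)) (fun b => 1 + (b : ℚ))]
  unfold A Lambda
  rw [Finset.sum_filter, Finset.sum_filter]
  refine Finset.sum_congr rfl fun p _ => ?_
  have hent : ∀ i, entry p i = X13.PS.lam p i := fun i => rfl
  have hsum : ∑ i : Fin (n + 1), (p i : ℕ) = ∑ i ∈ Finset.range (n + 1), X13.PS.lam p (i + 1) := by
    rw [← Fin.sum_univ_eq_sum_range (fun i => X13.PS.lam p (i + 1)) (n + 1)]
    refine Finset.sum_congr rfl fun i _ => ?_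
    unfold X13.PS.lam
    rw [dif_pos (by omega)]
    congr
  have hprod : (1 + (entry p 1 : ℚ)) * (C p : ℚ) * u p =
      (1 + (X13.PS.lam p 1 : ℚ)) * ∏ i ∈ Finset.range (n + 1),
        ((a (i + 1) / ((i + 1 : ℕ) : ℚ)) ^ X13.PS.lam p (i + 1) *
        (((X13.PS.lam p (i + 1)).choose (X13.PS.lam p (i + 2)) : ℕ) : ℚ)) := by
    rw [Finset.prod_mul_distrib, C, u]
    have hr : Finset.Icc 1 (n + 1) = Finset.Ico 1 (n + 2) := by
      ext x; simp only [Finset.mem_Icc, Finset.mem_Ico]; omega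
    rw [hr, Finset.prod_Ico_eq_prod_range, Finset.prod_Ico_eq_prod_range]
    have h1 : ∀ i, 1 + i = i + 1 := fun i => by ring
    simp only [hent, h1]
    rw [show n + 2 - 1 = n + 1 by omega]
    push_cast
    ring
  by_cases hs : ∑ i ∈ Finset.range (n + 1), X13.PS.lam p (i + 1) = n + 1
  · rw [if_pos hs]
    by_cases ha : ∀ i j : Fin (n + 1), i ≤ j → p j ≤ p i
    · rw [if_pos ⟨ha, by rw [hsum, hs]⟩, hprod]
    · rw [if_neg (fun h => ha h.1)]
      symm
      rw [Finset.prod_mul_distrib]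
      by_contra hne
      apply ha
      apply X13.PS.choose_ne_zero_antitone p
      intro h0
      apply hne
      rw [h0]
      ring
  · rw [if_neg hs, if_neg (fun h => hs (by rw [← hsum, h.2]))]

/-- **`A_n = 2 ^ n` for every `n ≥ 1`** (in particular for every `n > 1`). -/
theorem result : ∀ n : ℕ, 1 ≤ n → A n = 2 ^ n := by
  intro n hn
  obtain ⟨n, rfl⟩ : ∃ m, n = m + 1 := ⟨n - 1, by omega⟩
  rw [A_eq]
  set g : PowerSeries ℚ := ∑ k ∈ Finset.range (n + 1), PowerSeries.C (∏ i ∈ Finset.range (k + 1),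
        (a (i + 1) / ((i + 1 : ℕ) : ℚ))) * PowerSeries.X ^ (k + 1) with hg
  set G : PowerSeries ℚ := 1 - PowerSeries.mk s with hG
  -- `g` and `G` agree up to `X ^ (n + 2)`
  have hcg : ∀ k, PowerSeries.coeff k g = if 1 ≤ k ∧ k ≤ n + 1 then
      ∏ i ∈ Finset.range k, (a (i + 1) / ((i + 1 : ℕ) : ℚ)) else 0 := by
    intro k
    rw [hg, map_sum]
    simp only [PowerSeries.coeff_C_mul, PowerSeries.coeff_X_pow]
    by_cases hk : 1 ≤ k ∧ k ≤ n + 1
    · rw [if_pos hk, Finset.sum_eq_single (k - 1)]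
      · rw [show k - 1 + 1 = k by omega, if_pos rfl, mul_one]
      · intro b _ hb
        rw [if_neg (by omega), mul_zero]
      · intro h
        exact absurd (Finset.mem_range.2 (by omega)) h
    · rw [if_neg hk]
      apply Finset.sum_eq_zero
      intro b hb
      rw [Finset.mem_range] at hb
      rw [if_neg (by omega), mul_zero]
  have hdvd : (PowerSeries.X : PowerSeries ℚ) ^ (n + 2) ∣ g - G := by
    rw [PowerSeries.X_pow_dvd_iff]
    intro k hk
    rw [map_sub, hcg, hG, map_sub, PowerSeries.coeff_mk, PowerSeries.coeff_one]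
    by_cases hk0 : k = 0
    · subst hk0
      simp [s]
    · rw [if_pos (by omega), if_neg hk0, s, if_neg hk0]
      ring
  have hXG : (PowerSeries.X : PowerSeries ℚ) ∣ G := by
    rw [PowerSeries.X_dvd_iff, hG, ← PowerSeries.coeff_zero_eq_constantCoeff_apply, map_sub,
      PowerSeries.coeff_mk]
    simp [s]
  have hrepl : PowerSeries.coeff (n + 1) (∑ b ∈ Finset.range (n + 2),
      PowerSeries.C (1 + (b : ℚ)) * g ^ b) = PowerSeries.coeff (n + 1)
      (∑ b ∈ Finset.range (n + 2), PowerSeries.C (1 + (b : ℚ)) * G ^ b) := by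
    rw [← sub_eq_zero, ← map_sub, ← Finset.sum_sub_distrib]
    apply X13.PS.coeff_of_dvd _ (n + 2) _ (by omega)
    apply Finset.dvd_sum
    intro b _
    rw [← mul_sub]
    exact Dvd.dvd.mul_left (hdvd.trans (sub_dvd_pow_sub_pow g G b)) _
  rw [hrepl]
  set P : PowerSeries ℚ := ∑ b ∈ Finset.range (n + 2), PowerSeries.C (1 + (b : ℚ)) * G ^ b with hP
  have h1 : (1 - PowerSeries.C 2 * PowerSeries.X) * P = 1 +
      G ^ (n + 2) * (PowerSeries.C ((n + 2 : ℕ) : ℚ) * G - PowerSeries.C (((n + 2 : ℕ) : ℚ) + 1)) := by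
    rw [← X13.PS.tele, ← X13.PS.sq_neg s (by simp [s]) s_rec, hG]
    ring
  have h2 : ∀ k, k < n + 2 → PowerSeries.coeff k ((1 - PowerSeries.C 2 * PowerSeries.X) * P) =
      if k = 0 then 1 else 0 := by
    intro k hk
    rw [h1, map_add, X13.PS.coeff_of_dvd _ (n + 2) k hk
      (Dvd.dvd.mul_right (pow_dvd_pow_of_dvd hXG _) _), add_zero, PowerSeries.coeff_one]
  have h3 : (1 - PowerSeries.C 2 * PowerSeries.X) * P =
      P - PowerSeries.C 2 * (P * PowerSeries.X) := by ring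
  have h4 : ∀ k, k < n + 2 → PowerSeries.coeff k P = 2 ^ k := by
    intro k
    induction k with
    | zero =>
      intro hk
      have := h2 0 hk
      rw [h3, map_sub, PowerSeries.coeff_C_mul] at this
      simpa using this
    | succ k ih =>
      intro hk
      have := h2 (k + 1) hk
      rw [h3, map_sub, PowerSeries.coeff_C_mul, PowerSeries.coeff_succ_mul_X, ih (by omega),
        if_neg (by omega)] at this
      rw [pow_succ]
      linarith
  exact h4 (n + 1) (by omega)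

end Pool.Agent.Results.MP_62fa17_nt.SumEqTwoPow
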